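import Pool.Agent.W622.ETG.Lin

set_option autoImplicit false
set_option linter.unusedSectionVars false

/-!
In case B the blocks killed by `b ≠ 0` are the components of `A_b`.
-/

namespace Pool.Agent.W15.ELG

open Pool.Agent.W622.ETG Module

section
variable {V : Type} [AddCommGroup V] [Module (ZMod 2) V] [Finite V]

/-- the dimension of a space with a given basis -/
theorem finrank_gen {M ι : Type} [AddCommGroup M] [Module (ZMod 2) M] [Fintype ι] (v : ι → M)
    (W : Submodule (ZMod 2) M)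
    (h1 : ∀ (t : Finset ι) (g : ι → ZMod 2), ∑ j ∈ t, g j • v j = 0 → ∀ i ∈ t, g i = 0)
    (h2 : W = Submodule.span (ZMod 2) (Set.range v)) :
    finrank (ZMod 2) W = Fintype.card ι := by
  rw [h2]
  exact finrank_span_eq_card (linearIndependent_iff'.2 h1)

/-- in case B all blocks are local -/
theorem block_loc {e : V} {A : Fam V} (hA : CB e A) {X : DSub V} (hX : Block e A X) : LocBlock e A X := by
  rcases hX with h | h
  · exact absurd h.1 (hA.nc X)
  · exact h

end

theorem t_CB1 (hNF : S_NF) (hBLK : S_BLK) (hOM : S_OM)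
    (_hSPLIT : S_SPLIT) (_hBNT : S_BNT) : S_CB1 := by
  intro V _ _ _ e A b hA hb
  classical
  have hel := hA.mc.el (ann b) (ann_ne_top hb)
  obtain ⟨_, s, hs⟩ := hNF V e _ hel
  have hsBL : s = BL e A b := by
    apply Set.Subset.antisymm
    · intro X hX
      rcases hs.2.2 X hX with ⟨ω, hω, rfl⟩ | ⟨p, hp⟩
      · have hle : sp ω ≤ ann b := (mem_res'.1 hω.1).2
        refine ⟨Or.inr ⟨ω, ⟨hω.1.1, hω.2.1, fun η hη hle' => ?_⟩, rfl, fun Z hZ => absurd hZ
          (hA.nc Z)⟩, hle⟩
        exact hω.2.2 η (mem_res'.2 ⟨hη, hle'.trans hle⟩) hle'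
      · exact absurd ⟨p, hp.1, hp.2.1, hp.2.2.1, hp.2.2.2.1, fun g hg => (hp.2.2.2.2 g hg).1⟩
          (hA.nc X)
    · rintro X ⟨hX, hXb⟩
      exact hBLK V e A X (ann b) s hA.mc.ef hX hXb hs
  rw [hsBL] at hs
  have hom : ∀ X ∈ BL e A b, om e A X ∈ A ∧ om e A X ≠ 0 ∧ sp (om e A X) = X ∧
      (∀ η ∈ res A X, η = 0 ∨ η = om e A X) := fun X hX => by
        obtain ⟨h1, h2, h3, h4, _⟩ := hOM V e A X hA.mc.ef (block_loc hA hX.1)
        exact ⟨h1, h2, h3, h4⟩
  refine ⟨hs, ?_, ?_⟩
  · -- a basis of `A_b`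
    let v : BL e A b → Frm V := fun X => om e A X.1
    have hli : ∀ (t : Finset (BL e A b)) (g : BL e A b → ZMod 2), ∑ j ∈ t, g j • v j = 0 →
        ∀ i ∈ t, g i = 0 := by
      intro t g hg i hi
      by_contra hgi
      have hgi1 : g i = 1 := z_ne hgi
      apply (hom i.1 i.2).2.1
      refine LinearMap.ext fun a => ?_
      have h1 : ∑ j ∈ t, g j • (om e A j.1) a = 0 := by
        have := congrArg (fun ω : Frm V => ω a) hg
        simpa [v, LinearMap.sum_apply] using this
      rw [← Finset.add_sum_erase t _ hi, hgi1, one_smul] at h1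
      have h2 : (om e A i.1) a = ∑ j ∈ t.erase i, g j • (om e A j.1) a :=
        Pool.Agent.W622.ETC.add_eq_zero'.1 h1
      have h3 : (om e A i.1) a ∈ i.1 := by
        have : (om e A i.1) a ∈ sp (om e A i.1) := ⟨a, rfl⟩
        rwa [(hom i.1 i.2).2.2.1] at this
      have h4 : (om e A i.1) a ∈ sSup (BL e A b \ {i.1}) := by
        rw [h2]
        refine Submodule.sum_mem _ fun j hj => Submodule.smul_mem _ _ ?_
        have hji : j ≠ i := Finset.ne_of_mem_erase hj
        have h5 : j.1 ∈ BL e A b \ {i.1} := ⟨j.2, fun h => hji (Subtype.ext h)⟩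
        refine (le_sSup h5) ?_
        have : (om e A j.1) a ∈ sp (om e A j.1) := ⟨a, rfl⟩
        rwa [(hom j.1 j.2).2.2.1] at this
      have h6 := (hs.1 i.2).le_bot ⟨h3, h4⟩
      exact (Submodule.mem_bot _).1 h6
    have hspan : res A (ann b) = Submodule.span (ZMod 2) (Set.range v) := by
      apply le_antisymm
      · rw [hs.2.1]
        refine iSup_le fun X => iSup_le fun hX => ?_
        intro η hη
        have hη' : η ∈ res A X := ⟨hη.1.1, hη.2⟩
        rcases (hom X hX).2.2.2 η hη' with rfl | rfl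
        · exact Submodule.zero_mem _
        · exact Submodule.subset_span ⟨⟨X, hX⟩, rfl⟩
      · rw [Submodule.span_le]
        rintro _ ⟨X, rfl⟩
        refine mem_res'.2 ⟨(hom X.1 X.2).1, ?_⟩
        show sp (om e A X.1) ≤ ann b
        rw [(hom X.1 X.2).2.2.1]
        exact X.2.2
    have : Fintype (BL e A b) := Fintype.ofFinite _
    rw [← Nat.card_coe_set_eq, Nat.card_eq_fintype_card]
    exact finrank_gen v _ hli hspan
  · have h3 : (sSup (BL e A b) : DSub V) ≤ ann b := sSup_le fun X hX => hX.2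
    have h4 : finrank (ZMod 2) (sSup (BL e A b) : DSub V) ≤ finrank (ZMod 2) (ann b : DSub V) :=
      Submodule.finrank_mono h3
    have h5 := finrank_ann hb
    omega

end Pool.Agent.W15.ELG
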